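import Pool.Agent.X326.Dic.Neg2
import Pool.Agent.X326.Dic.Sim2

/-!
# MP_70eb0a_al: condition (N) does not imply that the local group ring is semiperfect

The counterexample is the dicyclic group `G` of order 12 with `p = 2`.  Every simple
`𝔽_2 G`-module is the reduction of a simple `ℚ G`-module, so (N) holds.  On the other hand
`ℤ_(2) G` maps onto the order `Λ = ℤ_(2)⟨i, j⟩`, `i² + i + 1 = 0`, `j² = -1`, `j i = i⁻¹ j`, of the
rational quaternion division algebra ramified at `3` and `∞`; since it is unramified at `2`,
`Λ / 2 Λ` is a matrix algebra over `𝔽_2`, and its nontrivial idempotents do not lift to `Λ`, which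
is a domain.
-/

set_option autoImplicit false

namespace Pool.Agent.Results.MP_70eb0a_al.DicyclicTwelve

open Pool.Agent.X326.Dic

/-- There are a finite group `G` and a prime `p` such that condition (N) holds and `ℤ_(p) G` is not
semiperfect. -/
theorem result : ∃ (G : Type) (_ : Group G) (_ : Finite G) (p : ℕ) (_ : Fact p.Prime),
    ConditionN p G ∧ ¬ IsSemiperfect (MonoidAlgebra (ZLoc p) G) :=
  ⟨QuaternionGroup 3, inferInstance, inferInstance, 2, inferInstance, conditionN, not_semiperfect⟩

end Pool.Agent.Results.MP_70eb0a_al.DicyclicTwelve
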